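import Pool.Agent.H69.LQ.Lib

/-!
# LQ, row FA: removal of the far part
-/

set_option autoImplicit false

open MeasureTheory Metric Set
open scoped ENNReal
open Pool.Agent.H85.LK (E adm lam Ann)
open Pool.Agent.H69.LQ

namespace Pool.Agent.H7.LQ

theorem fa_int_sq {N : ℕ} {f : E N → ℝ} (hf : ContDiff ℝ (⊤ : ℕ∞) f)
    (hc : HasCompactSupport f) : Integrable (fun x => f x ^ 2) := by
  apply Continuous.integrable_of_hasCompactSupport
  · exact hf.continuous.pow 2
  · exact hc.comp_left (g := fun t : ℝ => t ^ 2) (by norm_num)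

theorem fa_int_grad {N : ℕ} {f : E N → ℝ} (hf : ContDiff ℝ (⊤ : ℕ∞) f)
    (hc : HasCompactSupport f) : Integrable (fun x => ‖fderiv ℝ f x‖ ^ 2) := by
  apply Continuous.integrable_of_hasCompactSupport
  · exact (hf.continuous_fderiv (by simp)).norm.pow 2
  · exact (hc.fderiv (𝕜 := ℝ)).comp_left (g := fun t => ‖t‖ ^ 2) (by simp)

/-- a function constant on an open set has derivative zero there -/
theorem fa_fderiv_zero {N : ℕ} {f : E N → ℝ} {U : Set (E N)} {c : ℝ} (hU : IsOpen U)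
    (h : ∀ x ∈ U, f x = c) {x : E N} (hx : x ∈ U) : fderiv ℝ f x = 0 := by
  have h1 : f =ᶠ[nhds x] fun _ => c := Filter.eventually_of_mem (hU.mem_nhds hx) h
  rw [h1.fderiv_eq]
  simp

theorem pf_FA (hSM : T_SM) (hCU : T_CU) (hIM : T_IM) : T_FA := by
  intro N L δ hN hL hδ hδ1
  obtain ⟨χ, η, hχ, hη, hsq, hnn, hin, hout, M, hM⟩ := hCU N (1 + δ) (1 + 5 * δ) hN
    (by linarith) (by linarith)
  obtain ⟨χ2, η2, hχ2, hη2, hsq2, hnn2, hin2, hout2, M2, hM2⟩ := hCU N (1 + 3 * δ / 4) (1 + δ) hN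
    (by linarith) (by linarith)
  have hM0 : 0 ≤ M := le_trans (by positivity) (hM 0)
  have hM20 : 0 ≤ M2 := le_trans (by positivity) (hM2 0)
  -- choice of ε
  set ε : ℝ := min (1 / (L + M + 1)) (δ ^ 2 / (M * (2 + 2 * M2) + 1)) with hε
  have hε0 : 0 < ε := lt_min (by positivity) (by positivity)
  have hε1 : ε * (L + M + 1) ≤ 1 := by
    have h1 : ε ≤ 1 / (L + M + 1) := min_le_left _ _
    rw [le_div_iff₀ (by positivity)] at h1
    exact h1
  have hε2 : M * ε * (2 + 2 * M2) ≤ δ ^ 2 := by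
    have h1 : ε ≤ δ ^ 2 / (M * (2 + 2 * M2) + 1) := min_le_right _ _
    rw [le_div_iff₀ (by positivity)] at h1
    nlinarith
  obtain ⟨κ, hκ, hκ1⟩ := hSM N hN ε hε0
  refine ⟨κ, hκ, ?_⟩
  intro Ω v hΩ hvol hv hvc hvs
  have hu : ContDiff ℝ (⊤ : ℕ∞) (fun x => χ x * v x) := hχ.mul hv
  have hy : ContDiff ℝ (⊤ : ℕ∞) (fun x => η x * v x) := hη.mul hv
  have huc : HasCompactSupport (fun x => χ x * v x) := hvc.mul_left
  have hyc : HasCompactSupport (fun x => η x * v x) := hvc.mul_left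
  have hz : ContDiff ℝ (⊤ : ℕ∞) (fun x => η2 x * (χ x * v x)) := hη2.mul hu
  have hzc : HasCompactSupport (fun x => η2 x * (χ x * v x)) := huc.mul_left
  have hv0 : ∀ x, x ∉ Ω → v x = 0 := fun x hx => by
    by_contra h
    exact hx (hvs (subset_tsupport v h))
  have hsq' : ∀ x, (χ x * v x) ^ 2 + (η x * v x) ^ 2 = v x ^ 2 := fun x => by
    have := hsq x
    calc (χ x * v x) ^ 2 + (η x * v x) ^ 2 = (χ x ^ 2 + η x ^ 2) * v x ^ 2 := by ring
      _ = v x ^ 2 := by rw [this, one_mul]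
  -- supports
  have hO : IsOpen (Ω \ closedBall (0 : E N) (1 + δ / 2)) := hΩ.sdiff isClosed_closedBall
  have htη : ∀ (f : E N → ℝ) (r : ℝ), (∀ x, ‖x‖ ≤ r → f x = 0) → tsupport f ⊆ {x | r ≤ ‖x‖} := by
    intro f r h
    apply closure_minimal
    · intro x hx
      by_contra h1
      exact hx (h x (le_of_not_ge h1))
    · exact isClosed_le continuous_const continuous_norm
  have hys : tsupport (fun x => η x * v x) ⊆ Ω \ closedBall (0 : E N) (1 + δ / 2) := by
    intro x hx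
    have h1 : x ∈ tsupport η := tsupport_mul_subset_left hx
    have h2 : x ∈ tsupport v := tsupport_mul_subset_right hx
    refine ⟨hvs h2, ?_⟩
    have h3 := htη η (1 + δ) (fun x hx => (hin x hx).2) h1
    rw [mem_closedBall_zero_iff]
    simp only [Set.mem_ofPred_eq] at h3
    linarith
  have hzs : tsupport (fun x => η2 x * (χ x * v x)) ⊆ Ω \ closedBall (0 : E N) (1 + δ / 2) := by
    intro x hx
    have h1 : x ∈ tsupport η2 := tsupport_mul_subset_left hx
    have h2 : x ∈ tsupport (fun x => χ x * v x) := tsupport_mul_subset_right (f := η2) hx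
    have h4 : x ∈ tsupport v := tsupport_mul_subset_right (f := χ) h2
    refine ⟨hvs h4, ?_⟩
    have h3 := htη η2 (1 + 3 * δ / 4) (fun x hx => (hin2 x hx).2) h1
    rw [mem_closedBall_zero_iff]
    simp only [Set.mem_ofPred_eq] at h3
    linarith
  have hSy := hκ1 _ _ hO hvol hy hyc hys
  have hSz := hκ1 _ _ hO hvol hz hzc hzs
  -- integrability
  have i1 := fa_int_sq hu huc
  have i2 := fa_int_sq hy hyc
  have i3 := fa_int_sq hz hzc
  have i4 := fa_int_sq hv hvc
  have j1 := fa_int_grad hu huc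
  have j2 := fa_int_grad hy hyc
  have j3 := fa_int_grad hz hzc
  have j4 := fa_int_grad hv hvc
  -- localization
  have hloc : (∫ x, ‖fderiv ℝ (fun x => χ x * v x) x‖ ^ 2) +
      (∫ x, ‖fderiv ℝ (fun x => η x * v x) x‖ ^ 2) ≤ (∫ x, ‖fderiv ℝ v x‖ ^ 2) +
        (M * (∫ x, (η2 x * (χ x * v x)) ^ 2) + M * ∫ x, (η x * v x) ^ 2) := by
    have k1 : Integrable (fun x => M * (η2 x * (χ x * v x)) ^ 2 + M * (η x * v x) ^ 2) :=
      (i3.const_mul M).add (i2.const_mul M)
    rw [← integral_add j1 j2, ← integral_const_mul, ← integral_const_mul,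
      ← integral_add (i3.const_mul M) (i2.const_mul M), ← integral_add j4 k1]
    apply integral_mono (j1.add j2) (j4.add k1)
    intro x
    have h1 := hIM N χ η v hχ hη hv hsq x
    show ‖fderiv ℝ (fun x => χ x * v x) x‖ ^ 2 + ‖fderiv ℝ (fun x => η x * v x) x‖ ^ 2 ≤
      ‖fderiv ℝ v x‖ ^ 2 + (M * (η2 x * (χ x * v x)) ^ 2 + M * (η x * v x) ^ 2)
    rw [h1]
    have h2 : (‖fderiv ℝ χ x‖ ^ 2 + ‖fderiv ℝ η x‖ ^ 2) * v x ^ 2 ≤
        M * (η2 x * (χ x * v x)) ^ 2 + M * (η x * v x) ^ 2 := by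
      by_cases hx : ‖x‖ < 1 + δ
      · have hxb : x ∈ ball (0 : E N) (1 + δ) := by rwa [mem_ball_zero_iff]
        have e1 : fderiv ℝ χ x = 0 := fa_fderiv_zero isOpen_ball
          (fun z hz => (hin z (by rw [mem_ball_zero_iff] at hz; exact hz.le)).1) hxb
        have e2 : fderiv ℝ η x = 0 := fa_fderiv_zero isOpen_ball
          (fun z hz => (hin z (by rw [mem_ball_zero_iff] at hz; exact hz.le)).2) hxb
        rw [e1, e2]
        simp only [norm_zero, ne_eq, OfNat.ofNat_ne_zero, not_false_eq_true, zero_pow, add_zero,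
          zero_mul]
        positivity
      · have hx' : 1 + δ ≤ ‖x‖ := le_of_not_gt hx
        have e1 : η2 x = 1 := (hout2 x hx').2
        have e2 := hsq' x
        rw [e1, one_mul, ← mul_add, e2]
        exact mul_le_mul_of_nonneg_right (hM x) (sq_nonneg _)
    linarith
  -- the auxiliary function
  set AA : Set (E N) := an (1 + δ / 2) (1 + 5 * δ) with hAA
  have hAm : MeasurableSet AA := by
    have : AA = {x : E N | 1 + δ / 2 < ‖x‖} ∩ {x : E N | ‖x‖ < 1 + 5 * δ} := rfl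
    rw [this]
    exact (isOpen_lt continuous_const continuous_norm).measurableSet.inter
      (isOpen_lt continuous_norm continuous_const).measurableSet
  have hzero : ∀ x, x ∉ AA → fderiv ℝ (fun x => η2 x * (χ x * v x)) x = 0 := by
    intro x hx
    by_cases h1 : 1 + δ / 2 < ‖x‖
    · have h2 : 1 + 5 * δ ≤ ‖x‖ := by
        by_contra h
        exact hx ⟨h1, lt_of_not_ge h⟩
      have hcl : IsClosed {x : E N | fderiv ℝ (fun x => η2 x * (χ x * v x)) x = 0} :=
        isClosed_eq (hz.continuous_fderiv (by simp)) continuous_const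
      have hsub : (closedBall (0 : E N) (1 + 5 * δ))ᶜ ⊆
          {x : E N | fderiv ℝ (fun x => η2 x * (χ x * v x)) x = 0} := by
        intro w hw
        refine fa_fderiv_zero (c := 0) isClosed_closedBall.isOpen_compl ?_ hw
        intro w' hw'
        have h3 : 1 + 5 * δ ≤ ‖w'‖ := by
          rw [mem_compl_iff, mem_closedBall_zero_iff, not_le] at hw'
          exact hw'.le
        rw [(hout w' h3).1]
        ring
      have h3 := closure_minimal hsub hcl
      rw [closure_compl, interior_closedBall _ (by linarith : (1 + 5 * δ) ≠ 0)] at h3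
      apply h3
      rw [mem_compl_iff, mem_ball_zero_iff, not_lt]
      exact h2
    · refine fa_fderiv_zero (c := 0) (U := ball (0 : E N) (1 + 3 * δ / 4)) isOpen_ball ?_ ?_
      · intro w hw
        rw [mem_ball_zero_iff] at hw
        rw [(hin2 w hw.le).2]
        ring
      · rw [mem_ball_zero_iff]
        linarith [le_of_not_gt h1]
  have hgz : (∫ x, ‖fderiv ℝ (fun x => η2 x * (χ x * v x)) x‖ ^ 2) ≤
      (2 + 2 * M2) * ∫ x in AA, (‖fderiv ℝ (fun x => χ x * v x) x‖ ^ 2 + (χ x * v x) ^ 2) := by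
    have h1 : (∫ x, ‖fderiv ℝ (fun x => η2 x * (χ x * v x)) x‖ ^ 2) =
        ∫ x in AA, ‖fderiv ℝ (fun x => η2 x * (χ x * v x)) x‖ ^ 2 := by
      symm
      apply setIntegral_eq_integral_of_forall_compl_eq_zero
      intro x hx
      rw [hzero x hx]
      simp
    rw [h1, ← integral_const_mul]
    apply integral_mono j3.integrableOn ((j1.add i1).integrableOn.const_mul _)
    intro x
    show ‖fderiv ℝ (fun x => η2 x * (χ x * v x)) x‖ ^ 2 ≤
      (2 + 2 * M2) * (‖fderiv ℝ (fun x => χ x * v x) x‖ ^ 2 + (χ x * v x) ^ 2)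
    have hd1 : DifferentiableAt ℝ η2 x := (hη2.differentiable (by simp)).differentiableAt
    have hd2 : DifferentiableAt ℝ (fun x => χ x * v x) x :=
      (hu.differentiable (by simp)).differentiableAt
    have e1 : fderiv ℝ (fun x => η2 x * (χ x * v x)) x =
        η2 x • fderiv ℝ (fun x => χ x * v x) x + (χ x * v x) • fderiv ℝ η2 x :=
      fderiv_fun_mul hd1 hd2
    rw [e1]
    have e2 : ‖η2 x • fderiv ℝ (fun x => χ x * v x) x + (χ x * v x) • fderiv ℝ η2 x‖ ≤
        |η2 x| * ‖fderiv ℝ (fun x => χ x * v x) x‖ + |χ x * v x| * ‖fderiv ℝ η2 x‖ := by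
      refine (norm_add_le _ _).trans ?_
      rw [norm_smul, norm_smul, Real.norm_eq_abs, Real.norm_eq_abs]
    have e3 : |η2 x| ≤ 1 := by
      rw [abs_le_one_iff_mul_self_le_one]
      have := hsq2 x
      nlinarith [sq_nonneg (χ2 x)]
    have e4 : ‖fderiv ℝ η2 x‖ ^ 2 ≤ M2 := le_trans (by nlinarith [sq_nonneg ‖fderiv ℝ χ2 x‖])
      (hM2 x)
    set a := ‖fderiv ℝ (fun x => χ x * v x) x‖ with ha
    set b := ‖fderiv ℝ η2 x‖ with hb
    have ha0 : 0 ≤ a := norm_nonneg _
    have hb0 : 0 ≤ b := norm_nonneg _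
    have e5 : |η2 x| * a + |χ x * v x| * b ≤ a + |χ x * v x| * b := by
      nlinarith
    have e6 : ‖η2 x • fderiv ℝ (fun x => χ x * v x) x + (χ x * v x) • fderiv ℝ η2 x‖ ^ 2 ≤
        (a + |χ x * v x| * b) ^ 2 := pow_le_pow_left₀ (norm_nonneg _) (e2.trans e5) 2
    refine e6.trans ?_
    have e7 : (|χ x * v x| * b) ^ 2 ≤ (χ x * v x) ^ 2 * M2 := by
      rw [mul_pow, sq_abs]
      exact mul_le_mul_of_nonneg_left e4 (sq_nonneg _)
    have e8 : (a + |χ x * v x| * b) ^ 2 ≤ 2 * a ^ 2 + 2 * (|χ x * v x| * b) ^ 2 := by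
      nlinarith [sq_nonneg (a - |χ x * v x| * b)]
    have e9 : 0 ≤ M2 * a ^ 2 := mul_nonneg hM20 (sq_nonneg _)
    nlinarith [sq_nonneg (χ x * v x)]
  have hAn : 0 ≤ ∫ x in AA, (‖fderiv ℝ (fun x => χ x * v x) x‖ ^ 2 + (χ x * v x) ^ 2) :=
    integral_nonneg fun x => by positivity
  refine ⟨fun x => χ x * v x, fun x => η x * v x, hu, hy, huc, hyc, ?_, ?_, ?_, hsq', ?_⟩
  · intro x hx
    show χ x * v x = 0
    rw [hv0 x hx, mul_zero]
  · intro x hx
    show χ x * v x = 0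
    rw [(hout x hx).1, zero_mul]
  · intro x hx
    show χ x * v x = v x
    rw [(hin x hx).1, one_mul]
  · have hsum : ∫ x, v x ^ 2 = (∫ x, (χ x * v x) ^ 2) + ∫ x, (η x * v x) ^ 2 := by
      rw [← integral_add i1 i2]
      exact integral_congr_ae (ae_of_all _ fun x => (hsq' x).symm)
    rw [hsum]
    set A := ∫ x in AA, (‖fderiv ℝ (fun x => χ x * v x) x‖ ^ 2 + (χ x * v x) ^ 2)
    set Gu := ∫ x, ‖fderiv ℝ (fun x => χ x * v x) x‖ ^ 2
    set Gy := ∫ x, ‖fderiv ℝ (fun x => η x * v x) x‖ ^ 2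
    set Gz := ∫ x, ‖fderiv ℝ (fun x => η2 x * (χ x * v x)) x‖ ^ 2
    set Gv := ∫ x, ‖fderiv ℝ v x‖ ^ 2
    set Iu := ∫ x, (χ x * v x) ^ 2
    set Iy := ∫ x, (η x * v x) ^ 2
    set Iz := ∫ x, (η2 x * (χ x * v x)) ^ 2
    have hGy0 : 0 ≤ Gy := integral_nonneg fun x => by positivity
    have s1 : M * Iz ≤ δ ^ 2 * A := by
      calc M * Iz ≤ M * (ε * Gz) := mul_le_mul_of_nonneg_left hSz hM0
        _ ≤ M * (ε * ((2 + 2 * M2) * A)) := by
            apply mul_le_mul_of_nonneg_left _ hM0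
            exact mul_le_mul_of_nonneg_left hgz hε0.le
        _ = (M * ε * (2 + 2 * M2)) * A := by ring
        _ ≤ δ ^ 2 * A := mul_le_mul_of_nonneg_right hε2 hAn
    have s2 : (L + M + 1) * Iy ≤ Gy := by
      calc (L + M + 1) * Iy ≤ (L + M + 1) * (ε * Gy) :=
            mul_le_mul_of_nonneg_left hSy (by positivity)
        _ = (ε * (L + M + 1)) * Gy := by ring
        _ ≤ 1 * Gy := mul_le_mul_of_nonneg_right hε1 hGy0
        _ = Gy := one_mul _
    nlinarith

end Pool.Agent.H7.LQ
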