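import Pool.Agent.H69.LQ.Lib

/-!
# LQ, row I2: the inequality in the inner ball
-/

set_option autoImplicit false

open MeasureTheory Metric Set
open scoped ENNReal
open Pool.Agent.H85.LK (E adm lam Ann)
open Pool.Agent.H69.LQ

namespace Pool.Agent.H7.LQ

/-- division by the first variable, with parameters -/
theorem i2_div {X : Type*} [TopologicalSpace X] (f f' : ℝ × X → ℝ)
    (hd : ∀ (r : ℝ) (x : X), HasDerivAt (fun r => f (r, x)) (f' (r, x)) r)
    (hc : Continuous f') (h0 : ∀ x, f (0, x) = 0) :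
    ∃ h : ℝ × X → ℝ, Continuous h ∧ ∀ r x, f (r, x) = r * h (r, x) := by
  refine ⟨fun q => ∫ s in (0 : ℝ)..1, f' (s * q.1, q.2), ?_, ?_⟩
  · exact intervalIntegral.continuous_parametric_intervalIntegral_of_continuous'
      (f := fun (q : ℝ × X) (s : ℝ) => f' (s * q.1, q.2)) (hc.comp (by fun_prop)) 0 1
  · intro r x
    have h1 : ∫ t in (0 : ℝ)..r, f' (t, x) = f (r, x) - f (0, x) :=
      intervalIntegral.integral_eq_sub_of_hasDerivAt (fun t _ => hd t x)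
        ((hc.comp (by fun_prop : Continuous fun t : ℝ => (t, x))).intervalIntegrable _ _)
    have h2 := intervalIntegral.mul_integral_comp_mul_right (a := 0) (b := 1)
      (f := fun t => f' (t, x)) r
    rw [zero_mul, one_mul, h1, h0, sub_zero] at h2
    exact h2.symm

theorem i2_alg (N : ℕ) (hN : 2 ≤ N) (c L r d h : ℝ) :
    r ^ (N - 1) * (d + (c / r ^ 2 - L) * (r * h) ^ 2) =
      r ^ (N - 1) * (d + c * h ^ 2 - L * (r * h) ^ 2) := by
  rcases eq_or_ne r 0 with h0 | h0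
  · subst h0
    rw [zero_pow (by omega : N - 1 ≠ 0), zero_mul, zero_mul]
  · field_simp
    ring

/-- joint continuity of the energy density -/
theorem i2_contJ {X : Type*} [TopologicalSpace X] (N : ℕ) (hN : 2 ≤ N) (c L : ℝ)
    (f f' : ℝ × X → ℝ)
    (hd : ∀ (r : ℝ) (x : X), HasDerivAt (fun r => f (r, x)) (f' (r, x)) r)
    (hcf : Continuous f) (hc : Continuous f') (h0 : ∀ x, f (0, x) = 0) :
    Continuous fun q : ℝ × X => q.1 ^ (N - 1) * (f' q ^ 2 + (c / q.1 ^ 2 - L) * f q ^ 2) := by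
  obtain ⟨h, hh, hf⟩ := i2_div f f' hd hc h0
  have h1 : (fun q : ℝ × X => q.1 ^ (N - 1) * (f' q ^ 2 + (c / q.1 ^ 2 - L) * f q ^ 2)) =
      fun q : ℝ × X => q.1 ^ (N - 1) * (f' q ^ 2 + c * h q ^ 2 - L * f q ^ 2) := by
    funext q
    obtain ⟨r, x⟩ := q
    show r ^ (N - 1) * (f' (r, x) ^ 2 + (c / r ^ 2 - L) * f (r, x) ^ 2) =
      r ^ (N - 1) * (f' (r, x) ^ 2 + c * h (r, x) ^ 2 - L * f (r, x) ^ 2)
    rw [hf r x, i2_alg N hN]
  rw [h1]
  fun_prop

theorem i2_cont (N : ℕ) (hN : 2 ≤ N) (c L : ℝ) (f f' : ℝ → ℝ) (hf : C1 f f') (h0 : f 0 = 0) :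
    Continuous fun r : ℝ => r ^ (N - 1) * (f' r ^ 2 + (c / r ^ 2 - L) * f r ^ 2) := by
  have h1 := i2_contJ (X := Unit) N hN c L (fun q => f q.1) (fun q => f' q.1)
    (fun r _ => hf.1 r) ((continuous_iff_continuousAt.2 fun x => (hf.1 x).continuousAt).comp
      continuous_fst) (hf.2.comp continuous_fst) (fun _ => h0)
  exact h1.comp (by fun_prop : Continuous fun r : ℝ => (r, ()))

theorem C1_cont {f f' : ℝ → ℝ} (hf : C1 f f') : Continuous f :=
  continuous_iff_continuousAt.2 fun x => (hf.1 x).continuousAt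

theorem i2_swap {N : ℕ} (G : ℝ × Sp N → ℝ) (hG : Continuous G) (a : ℝ) :
    av (fun θ => ∫ r in (0 : ℝ)..a, G (r, θ)) = ∫ r in (0 : ℝ)..a, av (fun θ => G (r, θ)) := by
  unfold av
  rw [intervalIntegral_integral_swap (f := fun (r : ℝ) (θ : Sp N) => G (r, θ))]
  have h1 : (volume.restrict (uIoc 0 a)).prod (mS N) =
      ((volume : Measure ℝ).prod (mS N)).restrict (uIoc 0 a ×ˢ univ) := by
    rw [← Measure.prod_restrict, Measure.restrict_univ]
  rw [h1]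
  have h2 : IntegrableOn G (uIcc 0 a ×ˢ (univ : Set (Sp N))) ((volume : Measure ℝ).prod (mS N)) :=
    hG.continuousOn.integrableOn_compact (isCompact_uIcc.prod isCompact_univ)
  exact h2.mono_set (prod_mono uIoc_subset_uIcc le_rfl)

theorem i2_add4 (a : ℝ) (g f1 f2 f3 f4 : ℝ → ℝ) (h1 : Continuous f1) (h2 : Continuous f2)
    (h3 : Continuous f3) (h4 : Continuous f4) (hg : ∀ r, g r = f1 r + f2 r + f3 r + f4 r) :
    ∫ r in (0 : ℝ)..a, g r = (((∫ r in (0 : ℝ)..a, f1 r) + ∫ r in (0 : ℝ)..a, f2 r) +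
      ∫ r in (0 : ℝ)..a, f3 r) + ∫ r in (0 : ℝ)..a, f4 r := by
  have e0 : g = fun r => f1 r + f2 r + f3 r + f4 r := funext hg
  rw [e0, intervalIntegral.integral_add (f := fun r => f1 r + f2 r + f3 r) (g := f4)
      (((h1.add h2).add h3).intervalIntegrable _ _) (h4.intervalIntegrable _ _),
    intervalIntegral.integral_add (f := fun r => f1 r + f2 r) (g := f3)
      ((h1.add h2).intervalIntegrable _ _) (h3.intervalIntegrable _ _),
    intervalIntegral.integral_add (h1.intervalIntegrable _ _) (h2.intervalIntegrable _ _)]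

/-- one mode of degree `n ≥ 1` -/
theorem i2_mode (hM1 : T_M1) (N n : ℕ) (L μ a : ℝ) (f f' : ℝ → ℝ) (hN : 2 ≤ N) (hn : 1 ≤ n)
    (hμ : 0 < μ) (ha : 0 < a) (hp : ∀ r, 0 < r → r ≤ μ * a → 0 < ph N L n r) (hf : C1 f f')
    (h0 : f 0 = 0) (c : ℝ) (hc : (n : ℝ) * (n + N - 2) = c) :
    dd N L n μ a * f a ^ 2 + (μ ^ 2 - 1) * L * (∫ r in (0 : ℝ)..a, r ^ (N - 1) * f r ^ 2) ≤
      ∫ r in (0 : ℝ)..a, r ^ (N - 1) * (f' r ^ 2 + (c / r ^ 2 - L) * f r ^ 2) := by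
  have h1 := hM1 N n L μ a f f' hN hn hμ ha hp hf h0
  rw [hc] at h1
  have hcf := C1_cont hf
  have h2 : ∫ r in (0 : ℝ)..a, r ^ (N - 1) * (f' r ^ 2 + (c / r ^ 2 - μ ^ 2 * L) * f r ^ 2) =
      (∫ r in (0 : ℝ)..a, r ^ (N - 1) * (f' r ^ 2 + (c / r ^ 2 - L) * f r ^ 2)) -
        (μ ^ 2 - 1) * L * ∫ r in (0 : ℝ)..a, r ^ (N - 1) * f r ^ 2 := by
    rw [← intervalIntegral.integral_const_mul, ← intervalIntegral.integral_sub]
    · apply intervalIntegral.integral_congr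
      intro r _
      show r ^ (N - 1) * (f' r ^ 2 + (c / r ^ 2 - μ ^ 2 * L) * f r ^ 2) =
        r ^ (N - 1) * (f' r ^ 2 + (c / r ^ 2 - L) * f r ^ 2) -
          (μ ^ 2 - 1) * L * (r ^ (N - 1) * f r ^ 2)
      ring
    · exact (i2_cont N hN c L f f' hf h0).intervalIntegrable _ _
    · exact (Continuous.intervalIntegrable (by fun_prop) _ _)
  linarith

theorem pf_I2 (hMP : T_MP) (hMO : T_MO) (hMC : T_MC) (hPY : T_PY) (hLF : T_LF) (hM0 : T_M0)
    (hM1 : T_M1) (hM2 : T_M2) (hPH : T_PH) (hPV : T_PV) (hCO : T_CO) (hCP : T_CP)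
    (hI1 : T_I1) : T_I2 := by
  intro N L r₁ μ a v T hN hFz hZ hμ hra hμa hv hav hT
  have hμ0 : 0 < μ := by linarith
  have hr0 : 0 < r₁ / μ := div_pos hZ.pos hμ0
  have ha : 0 < a := by linarith
  have hL : 0 < L := hFz.pos
  have hN0 : (0 : ℝ) < N := by exact_mod_cast (by omega : 0 < N)
  obtain ⟨-, har, -, -⟩ := hMP N hN
  have hI := hI1 N L a v hN ha hv
  obtain ⟨hCO1, hCO2⟩ := hCO N hN
  obtain ⟨hcrs, hcdr, hdrs, -⟩ := hCO2 v hv
  obtain ⟨p0, p1, p2, p3, p3c, p3c', z1, z2, z3⟩ := hCP N hN v hv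
  obtain ⟨-, hph, -⟩ := hPH N L hN
  have hph1 : Continuous (ph N L 1) := (hph 1).1.continuous
  have hph2 : Continuous (ph N L 2) := (hph 2).1.continuous
  have hdph1 : Continuous (dph N L 1) := (hph 1).2.continuous
  obtain ⟨-, -, -, hPVp, -, -, -⟩ := hPV N L hN hFz
  -- restrictions are bounded and measurable
  have hpair : ∀ r : ℝ, Continuous fun θ : Sp N => (r, θ) := fun r => by fun_prop
  have hBrs : ∀ r, BM (rs v r) := fun r => BM_cont (hcrs.comp (hpair r))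
  have hBr3 : ∀ r, BM (r3 (rs v r)) := fun r => BM_cont (p3c.comp (hpair r))
  have hBd3 : ∀ r, BM (r3 (dr v r)) := fun r => BM_cont (p3c'.comp (hpair r))
  -- mode 0
  have m0 : (μ ^ 2 - 1) * L * (∫ r in (0 : ℝ)..a, r ^ (N - 1) * n0 (rs v r)) ≤
      ∫ r in (0 : ℝ)..a, r ^ (N - 1) * (n0 (dr v r) - L * n0 (rs v r)) := by
    have h1 := hM0 N L r₁ μ a (fun r => av (rs v r)) (fun r => av (dr v r)) hN hFz hZ hμ0 hra hμa
      p0 hav
    have hc0 := C1_cont p0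
    have hc0' : Continuous (fun r => av (dr v r)) := p0.2
    have h2 : ∫ r in (0 : ℝ)..a, r ^ (N - 1) * (av (dr v r) ^ 2 - μ ^ 2 * L * av (rs v r) ^ 2) =
        (∫ r in (0 : ℝ)..a, r ^ (N - 1) * (n0 (dr v r) - L * n0 (rs v r))) -
          (μ ^ 2 - 1) * L * ∫ r in (0 : ℝ)..a, r ^ (N - 1) * n0 (rs v r) := by
      unfold n0
      rw [← intervalIntegral.integral_const_mul, ← intervalIntegral.integral_sub]
      · apply intervalIntegral.integral_congr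
        intro r _
        show r ^ (N - 1) * (av (dr v r) ^ 2 - μ ^ 2 * L * av (rs v r) ^ 2) =
          r ^ (N - 1) * (av (dr v r) ^ 2 - L * av (rs v r) ^ 2) -
            (μ ^ 2 - 1) * L * (r ^ (N - 1) * av (rs v r) ^ 2)
        ring
      · exact (Continuous.intervalIntegrable (by fun_prop) _ _)
      · exact (Continuous.intervalIntegrable (by fun_prop) _ _)
    rw [h2] at h1
    linarith
  -- mode 1
  have hc1 : ∀ j, Continuous fun r => c1 (rs v r) j := fun j => C1_cont (p1 j)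
  have q1 : ∀ j, Continuous fun r : ℝ => r ^ (N - 1) * (c1 (dr v r) j ^ 2 +
      (((N : ℝ) - 1) / r ^ 2 - L) * c1 (rs v r) j ^ 2) := fun j =>
    i2_cont N hN _ L _ _ (p1 j) (z1 j)
  have q1' : ∀ j, Continuous fun r : ℝ => r ^ (N - 1) * (c1 (rs v r) j - T j * ph N L 1 r) ^ 2 :=
    fun j => by have := hc1 j; fun_prop
  have e1 : ∫ r in (0 : ℝ)..a, r ^ (N - 1) * (n1 (dr v r) +
      (((N : ℝ) - 1) / r ^ 2 - L) * n1 (rs v r)) =
      1 / (N : ℝ) * ∑ j, ∫ r in (0 : ℝ)..a, r ^ (N - 1) * (c1 (dr v r) j ^ 2 +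
        (((N : ℝ) - 1) / r ^ 2 - L) * c1 (rs v r) j ^ 2) := by
    rw [← intervalIntegral.integral_finsetSum fun j _ => (q1 j).intervalIntegrable _ _,
      ← intervalIntegral.integral_const_mul]
    apply intervalIntegral.integral_congr
    intro r _
    show r ^ (N - 1) * (n1 (dr v r) + (((N : ℝ) - 1) / r ^ 2 - L) * n1 (rs v r)) =
      1 / (N : ℝ) * ∑ j, r ^ (N - 1) * (c1 (dr v r) j ^ 2 +
        (((N : ℝ) - 1) / r ^ 2 - L) * c1 (rs v r) j ^ 2)
    unfold n1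
    rw [← Finset.mul_sum, Finset.sum_add_distrib, ← Finset.mul_sum]
    ring
  have e1' : ∫ r in (0 : ℝ)..a, r ^ (N - 1) * ((∑ j, (c1 (rs v r) j - T j * ph N L 1 r) ^ 2) / N) =
      1 / (N : ℝ) * ∑ j, ∫ r in (0 : ℝ)..a, r ^ (N - 1) * (c1 (rs v r) j - T j * ph N L 1 r) ^ 2 := by
    rw [← intervalIntegral.integral_finsetSum fun j _ => (q1' j).intervalIntegrable _ _,
      ← intervalIntegral.integral_const_mul]
    apply intervalIntegral.integral_congr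
    intro r _
    show r ^ (N - 1) * ((∑ j, (c1 (rs v r) j - T j * ph N L 1 r) ^ 2) / N) =
      1 / (N : ℝ) * ∑ j, r ^ (N - 1) * (c1 (rs v r) j - T j * ph N L 1 r) ^ 2
    rw [← Finset.mul_sum]
    ring
  have hTn : ‖T‖ ^ 2 = ∑ j, T j ^ 2 := by
    rw [EuclideanSpace.norm_sq_eq]
    simp
  have m1 : a ^ (N - 1) * (dph N L 1 a * ph N L 1 a) * (‖T‖ ^ 2 / N) + (μ ^ 2 - 1) * L *
      (∫ r in (0 : ℝ)..a, r ^ (N - 1) * ((∑ j, (c1 (rs v r) j - T j * ph N L 1 r) ^ 2) / N)) ≤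
      ∫ r in (0 : ℝ)..a, r ^ (N - 1) * (n1 (dr v r) +
        (((N : ℝ) - 1) / r ^ 2 - L) * n1 (rs v r)) := by
    rw [e1, e1', hTn]
    have h1 : ∀ j, a ^ (N - 1) * (dph N L 1 a * ph N L 1 a) * T j ^ 2 + (μ ^ 2 - 1) * L *
        (∫ r in (0 : ℝ)..a, r ^ (N - 1) * (c1 (rs v r) j - T j * ph N L 1 r) ^ 2) ≤
        ∫ r in (0 : ℝ)..a, r ^ (N - 1) * (c1 (dr v r) j ^ 2 +
          (((N : ℝ) - 1) / r ^ 2 - L) * c1 (rs v r) j ^ 2) := fun j =>
      hM2 N L μ a (T j) (fun r => c1 (rs v r) j) (fun r => c1 (dr v r) j) hN hFz hμ ha hμa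
        (p1 j) (z1 j) (hT j)
    have h2 := Finset.sum_le_sum fun j (_ : j ∈ (Finset.univ : Finset (Fin N))) => h1 j
    rw [Finset.sum_add_distrib, ← Finset.mul_sum, ← Finset.mul_sum] at h2
    have h3 := mul_le_mul_of_nonneg_left h2 (by positivity : (0 : ℝ) ≤ 1 / (N : ℝ))
    calc _ = 1 / (N : ℝ) * (a ^ (N - 1) * (dph N L 1 a * ph N L 1 a) * ∑ j, T j ^ 2 +
          (μ ^ 2 - 1) * L * ∑ j, ∫ r in (0 : ℝ)..a, r ^ (N - 1) *
            (c1 (rs v r) j - T j * ph N L 1 r) ^ 2) := by ring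
      _ ≤ _ := h3
  -- mode 2
  have hc2 : ∀ j k, Continuous fun r => c2 (rs v r) j k := fun j k => C1_cont (p2 j k)
  have q2 : ∀ j k, Continuous fun r : ℝ => r ^ (N - 1) * (c2 (dr v r) j k ^ 2 +
      ((2 * (N : ℝ)) / r ^ 2 - L) * c2 (rs v r) j k ^ 2) := fun j k =>
    i2_cont N hN _ L _ _ (p2 j k) (z2 j k)
  have q2' : ∀ j k, Continuous fun r : ℝ => r ^ (N - 1) * c2 (rs v r) j k ^ 2 :=
    fun j k => by have := hc2 j k; fun_prop
  have e2 : ∫ r in (0 : ℝ)..a, r ^ (N - 1) * (n2 (dr v r) +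
      (2 * N / r ^ 2 - L) * n2 (rs v r)) =
      2 / ((N : ℝ) * (N + 2)) * ∑ j, ∑ k, ∫ r in (0 : ℝ)..a, r ^ (N - 1) * (c2 (dr v r) j k ^ 2 +
        ((2 * (N : ℝ)) / r ^ 2 - L) * c2 (rs v r) j k ^ 2) := by
    have h1 : ∀ j, (∑ k, ∫ r in (0 : ℝ)..a, r ^ (N - 1) * (c2 (dr v r) j k ^ 2 +
        ((2 * (N : ℝ)) / r ^ 2 - L) * c2 (rs v r) j k ^ 2)) =
        ∫ r in (0 : ℝ)..a, ∑ k, r ^ (N - 1) * (c2 (dr v r) j k ^ 2 +
        ((2 * (N : ℝ)) / r ^ 2 - L) * c2 (rs v r) j k ^ 2) := fun j =>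
      (intervalIntegral.integral_finsetSum fun k _ => (q2 j k).intervalIntegrable _ _).symm
    rw [Finset.sum_congr rfl fun j _ => h1 j, ← intervalIntegral.integral_finsetSum fun j _ =>
      (continuous_finsetSum _ fun k _ => q2 j k).intervalIntegrable _ _,
      ← intervalIntegral.integral_const_mul]
    apply intervalIntegral.integral_congr
    intro r _
    show r ^ (N - 1) * (n2 (dr v r) + (2 * N / r ^ 2 - L) * n2 (rs v r)) =
      2 / ((N : ℝ) * (N + 2)) * ∑ j, ∑ k, r ^ (N - 1) * (c2 (dr v r) j k ^ 2 +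
        ((2 * (N : ℝ)) / r ^ 2 - L) * c2 (rs v r) j k ^ 2)
    unfold n2
    simp_rw [← Finset.mul_sum, Finset.sum_add_distrib, ← Finset.mul_sum]
    ring
  have e2' : ∫ r in (0 : ℝ)..a, r ^ (N - 1) * n2 (rs v r) =
      2 / ((N : ℝ) * (N + 2)) * ∑ j, ∑ k, ∫ r in (0 : ℝ)..a, r ^ (N - 1) * c2 (rs v r) j k ^ 2 := by
    have h1 : ∀ j, (∑ k, ∫ r in (0 : ℝ)..a, r ^ (N - 1) * c2 (rs v r) j k ^ 2) =
        ∫ r in (0 : ℝ)..a, ∑ k, r ^ (N - 1) * c2 (rs v r) j k ^ 2 := fun j =>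
      (intervalIntegral.integral_finsetSum fun k _ => (q2' j k).intervalIntegrable _ _).symm
    rw [Finset.sum_congr rfl fun j _ => h1 j, ← intervalIntegral.integral_finsetSum fun j _ =>
      (continuous_finsetSum _ fun k _ => q2' j k).intervalIntegrable _ _,
      ← intervalIntegral.integral_const_mul]
    apply intervalIntegral.integral_congr
    intro r _
    show r ^ (N - 1) * n2 (rs v r) =
      2 / ((N : ℝ) * (N + 2)) * ∑ j, ∑ k, r ^ (N - 1) * c2 (rs v r) j k ^ 2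
    unfold n2
    simp_rw [← Finset.mul_sum]
    ring
  have m2 : dd N L 2 μ a * n2 (rs v a) + (μ ^ 2 - 1) * L *
      (∫ r in (0 : ℝ)..a, r ^ (N - 1) * n2 (rs v r)) ≤
      ∫ r in (0 : ℝ)..a, r ^ (N - 1) * (n2 (dr v r) + (2 * N / r ^ 2 - L) * n2 (rs v r)) := by
    rw [e2, e2']
    have h1 : ∀ j k, dd N L 2 μ a * c2 (rs v a) j k ^ 2 + (μ ^ 2 - 1) * L *
        (∫ r in (0 : ℝ)..a, r ^ (N - 1) * c2 (rs v r) j k ^ 2) ≤
        ∫ r in (0 : ℝ)..a, r ^ (N - 1) * (c2 (dr v r) j k ^ 2 +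
          ((2 * (N : ℝ)) / r ^ 2 - L) * c2 (rs v r) j k ^ 2) := fun j k =>
      i2_mode hM1 N 2 L μ a (fun r => c2 (rs v r) j k) (fun r => c2 (dr v r) j k) hN (by norm_num)
        hμ0 ha (fun r hr hr' => (hPVp r hr (by linarith)).1) (p2 j k) (z2 j k) _
        (by push_cast; ring)
    have h2 := Finset.sum_le_sum fun j (_ : j ∈ (Finset.univ : Finset (Fin N))) =>
      Finset.sum_le_sum fun k (_ : k ∈ (Finset.univ : Finset (Fin N))) => h1 j k
    simp_rw [Finset.sum_add_distrib, ← Finset.mul_sum] at h2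
    have h3 := mul_le_mul_of_nonneg_left h2 (by positivity : (0 : ℝ) ≤ 2 / ((N : ℝ) * (N + 2)))
    have h4 : n2 (rs v a) = 2 / ((N : ℝ) * (N + 2)) * ∑ j, ∑ k, c2 (rs v a) j k ^ 2 := rfl
    rw [h4]
    calc _ = 2 / ((N : ℝ) * (N + 2)) * (dd N L 2 μ a * ∑ j, ∑ k, c2 (rs v a) j k ^ 2 +
          (μ ^ 2 - 1) * L * ∑ j, ∑ k, ∫ r in (0 : ℝ)..a, r ^ (N - 1) *
            c2 (rs v r) j k ^ 2) := by ring
      _ ≤ _ := h3
  -- mode 3
  have q3 : Continuous fun q : ℝ × Sp N => q.1 ^ (N - 1) * (r3 (dr v q.1) q.2 ^ 2 +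
      ((3 * ((N : ℝ) + 1)) / q.1 ^ 2 - L) * r3 (rs v q.1) q.2 ^ 2) :=
    i2_contJ N hN _ L (fun q : ℝ × Sp N => r3 (rs v q.1) q.2)
      (fun q : ℝ × Sp N => r3 (dr v q.1) q.2) (fun r θ => (p3 θ).1 r) p3c p3c' z3
  have q3' : Continuous fun q : ℝ × Sp N => q.1 ^ (N - 1) * r3 (rs v q.1) q.2 ^ 2 :=
    (continuous_fst.pow _).mul (p3c.pow 2)
  have e3 : ∫ r in (0 : ℝ)..a, r ^ (N - 1) * (n3 (dr v r) +
      (3 * ((N : ℝ) + 1) / r ^ 2 - L) * n3 (rs v r)) =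
      av (fun θ => ∫ r in (0 : ℝ)..a, r ^ (N - 1) * (r3 (dr v r) θ ^ 2 +
        ((3 * ((N : ℝ) + 1)) / r ^ 2 - L) * r3 (rs v r) θ ^ 2)) := by
    rw [i2_swap _ q3 a]
    apply intervalIntegral.integral_congr
    intro r _
    show r ^ (N - 1) * (n3 (dr v r) + (3 * ((N : ℝ) + 1) / r ^ 2 - L) * n3 (rs v r)) =
      av (fun θ => r ^ (N - 1) * (r3 (dr v r) θ ^ 2 +
        ((3 * ((N : ℝ) + 1)) / r ^ 2 - L) * r3 (rs v r) θ ^ 2))
    rw [av_const_mul, av_add ((hBd3 r).pow 2) (((hBr3 r).pow 2).const_mul _), av_const_mul]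
    rfl
  have e3' : ∫ r in (0 : ℝ)..a, r ^ (N - 1) * n3 (rs v r) =
      av (fun θ => ∫ r in (0 : ℝ)..a, r ^ (N - 1) * r3 (rs v r) θ ^ 2) := by
    rw [i2_swap _ q3' a]
    apply intervalIntegral.integral_congr
    intro r _
    show r ^ (N - 1) * n3 (rs v r) = av (fun θ => r ^ (N - 1) * r3 (rs v r) θ ^ 2)
    rw [av_const_mul]
    rfl
  have hBint : ∀ G : ℝ × Sp N → ℝ, Continuous G → BM (fun θ => ∫ r in (0 : ℝ)..a, G (r, θ)) :=
    fun G hG => BM_int hG measurable_const 0 a fun _ => ⟨ha.le, le_rfl⟩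
  have m3 : dd N L 3 μ a * n3 (rs v a) + (μ ^ 2 - 1) * L *
      (∫ r in (0 : ℝ)..a, r ^ (N - 1) * n3 (rs v r)) ≤
      ∫ r in (0 : ℝ)..a, r ^ (N - 1) * (n3 (dr v r) +
        (3 * ((N : ℝ) + 1) / r ^ 2 - L) * n3 (rs v r)) := by
    rw [e3, e3']
    have h1 : ∀ θ : Sp N, dd N L 3 μ a * r3 (rs v a) θ ^ 2 + (μ ^ 2 - 1) * L *
        (∫ r in (0 : ℝ)..a, r ^ (N - 1) * r3 (rs v r) θ ^ 2) ≤
        ∫ r in (0 : ℝ)..a, r ^ (N - 1) * (r3 (dr v r) θ ^ 2 +
          ((3 * ((N : ℝ) + 1)) / r ^ 2 - L) * r3 (rs v r) θ ^ 2) := fun θ =>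
      i2_mode hM1 N 3 L μ a (fun r => r3 (rs v r) θ) (fun r => r3 (dr v r) θ) hN (by norm_num)
        hμ0 ha (fun r hr hr' => (hPVp r hr (by linarith)).2) (p3 θ) (z3 θ) _
        (by push_cast; ring)
    have hB1 : BM (fun θ : Sp N => dd N L 3 μ a * r3 (rs v a) θ ^ 2) :=
      ((hBr3 a).pow 2).const_mul _
    have hB2 : BM (fun θ : Sp N => (μ ^ 2 - 1) * L *
        (∫ r in (0 : ℝ)..a, r ^ (N - 1) * r3 (rs v r) θ ^ 2)) := (hBint _ q3').const_mul _
    have h2 := av_mono (hB1.add hB2) (hBint _ q3) h1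
    rw [av_add hB1 hB2, av_const_mul, av_const_mul] at h2
    exact h2
  -- the quadratic parts
  have hPyth : ∀ r, n0 (rs v r) + (∑ j, (c1 (rs v r) j - T j * ph N L 1 r) ^ 2) / N +
      n2 (rs v r) + n3 (rs v r) =
      av (rs (fun x => (v x - gT L T x) ^ 2) r) := by
    intro r
    obtain ⟨l1, l2, l3, l4, -⟩ := hLF N (rs v r) (ph N L 1 r • T) hN (hBrs r)
    have hB : BM (fun θ : Sp N => rs v r θ - inner ℝ (ph N L 1 r • T) (θ : E N)) :=
      (hBrs r).sub (BM_inner _)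
    obtain ⟨k1, -⟩ := hPY N _ hN hB
    have h1 : rs (fun x => (v x - gT L T x) ^ 2) r = fun θ : Sp N =>
        (rs v r θ - inner ℝ (ph N L 1 r • T) (θ : E N)) ^ 2 := by
      funext θ
      show (v (r • (θ : E N)) - gT L T (r • (θ : E N))) ^ 2 = _
      rw [gT_smul, real_inner_smul_left, mul_comm (ph N L 1 r)]
      rfl
    rw [h1, k1]
    have h2 : n0 (fun θ : Sp N => rs v r θ - inner ℝ (ph N L 1 r • T) (θ : E N)) =
        n0 (rs v r) := by
      unfold n0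
      rw [l2]
    have h3 : n1 (fun θ : Sp N => rs v r θ - inner ℝ (ph N L 1 r • T) (θ : E N)) =
        (∑ j, (c1 (rs v r) j - T j * ph N L 1 r) ^ 2) / N := by
      unfold n1
      congr 1
      refine Finset.sum_congr rfl fun j _ => ?_
      rw [l1 j, PiLp.smul_apply, smul_eq_mul, mul_comm (ph N L 1 r)]
    have h4 : n2 (fun θ : Sp N => rs v r θ - inner ℝ (ph N L 1 r • T) (θ : E N)) =
        n2 (rs v r) := by
      unfold n2
      congr 1
      refine Finset.sum_congr rfl fun j _ => Finset.sum_congr rfl fun k _ => ?_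
      rw [l3 j k]
    have h5 : n3 (fun θ : Sp N => rs v r θ - inner ℝ (ph N L 1 r • T) (θ : E N)) =
        n3 (rs v r) := by
      unfold n3
      congr 1
      funext θ
      rw [l4 θ]
    rw [h2, h3, h4, h5]
  -- continuity of the eigenfunction
  have hgT : Continuous (gT L T) := by
    have h1 : gT L T = fun x : E N => inner ℝ T x * (dph N L 1 ‖x‖ +
        L / 2 / ((N : ℝ) / 2 + 1) * ph N L 2 ‖x‖) := by
      funext x
      unfold gT dph ph
      have h2 : (N : ℝ) / 2 + 1 ≠ 0 := by positivity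
      have h3 : (N : ℝ) / 2 + (1 : ℕ) + 1 = (N : ℝ) / 2 + (2 : ℕ) := by push_cast; ring
      rw [h3]
      congr 1
      push_cast
      field_simp
      ring
    rw [h1]
    exact ((continuous_const.inner continuous_id)).mul ((hdph1.comp continuous_norm).add
      (continuous_const.mul (hph2.comp continuous_norm)))
  have hball : ∫ x in ball (0 : E N) a, (v x - gT L T x) ^ 2 = ar N *
      ∫ r in (0 : ℝ)..a, r ^ (N - 1) * (n0 (rs v r) +
        (∑ j, (c1 (rs v r) j - T j * ph N L 1 r) ^ 2) / N + n2 (rs v r) + n3 (rs v r)) := by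
    obtain ⟨h1, -, h3⟩ := hMC N (fun x => (v x - gT L T x) ^ 2) 0 a hN
      ((hv.continuous.sub hgT).pow 2) le_rfl ha.le
    rw [h3, h1]
    congr 1
    apply intervalIntegral.integral_congr
    intro r _
    show r ^ (N - 1) * av (rs (fun x => (v x - gT L T x) ^ 2) r) = _
    rw [← hPyth r]
  -- continuity of the energy densities
  have cn0 : Continuous fun r : ℝ => r ^ (N - 1) * n0 (rs v r) := by
    have := C1_cont p0
    unfold n0
    fun_prop
  have cn0' : Continuous fun r : ℝ => r ^ (N - 1) * (n0 (dr v r) - L * n0 (rs v r)) := by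
    have h1 := C1_cont p0
    have h2 : Continuous (fun r => av (dr v r)) := p0.2
    unfold n0
    fun_prop
  have cn1 : Continuous fun r : ℝ => r ^ (N - 1) *
      ((∑ j, (c1 (rs v r) j - T j * ph N L 1 r) ^ 2) / N) := by
    have h1 : (fun r : ℝ => r ^ (N - 1) * ((∑ j, (c1 (rs v r) j - T j * ph N L 1 r) ^ 2) / N)) =
        fun r : ℝ => 1 / (N : ℝ) * ∑ j, r ^ (N - 1) * (c1 (rs v r) j - T j * ph N L 1 r) ^ 2 := by
      funext r
      rw [← Finset.mul_sum]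
      ring
    rw [h1]
    exact continuous_const.mul (continuous_finsetSum _ fun j _ => q1' j)
  have cn1' : Continuous fun r : ℝ => r ^ (N - 1) * (n1 (dr v r) +
      (((N : ℝ) - 1) / r ^ 2 - L) * n1 (rs v r)) := by
    have h1 : (fun r : ℝ => r ^ (N - 1) * (n1 (dr v r) +
        (((N : ℝ) - 1) / r ^ 2 - L) * n1 (rs v r))) =
        fun r : ℝ => 1 / (N : ℝ) * ∑ j, r ^ (N - 1) * (c1 (dr v r) j ^ 2 +
          (((N : ℝ) - 1) / r ^ 2 - L) * c1 (rs v r) j ^ 2) := by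
      funext r
      unfold n1
      rw [← Finset.mul_sum, Finset.sum_add_distrib, ← Finset.mul_sum]
      ring
    rw [h1]
    exact continuous_const.mul (continuous_finsetSum _ fun j _ => q1 j)
  have cn2 : Continuous fun r : ℝ => r ^ (N - 1) * n2 (rs v r) := by
    have h1 : (fun r : ℝ => r ^ (N - 1) * n2 (rs v r)) =
        fun r : ℝ => 2 / ((N : ℝ) * (N + 2)) * ∑ j, ∑ k, r ^ (N - 1) * c2 (rs v r) j k ^ 2 := by
      funext r
      unfold n2
      simp_rw [← Finset.mul_sum]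
      ring
    rw [h1]
    exact continuous_const.mul (continuous_finsetSum _ fun j _ =>
      continuous_finsetSum _ fun k _ => q2' j k)
  have cn2' : Continuous fun r : ℝ => r ^ (N - 1) * (n2 (dr v r) +
      (2 * N / r ^ 2 - L) * n2 (rs v r)) := by
    have h1 : (fun r : ℝ => r ^ (N - 1) * (n2 (dr v r) + (2 * N / r ^ 2 - L) * n2 (rs v r))) =
        fun r : ℝ => 2 / ((N : ℝ) * (N + 2)) * ∑ j, ∑ k, r ^ (N - 1) * (c2 (dr v r) j k ^ 2 +
        ((2 * (N : ℝ)) / r ^ 2 - L) * c2 (rs v r) j k ^ 2) := by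
      funext r
      unfold n2
      simp_rw [← Finset.mul_sum, Finset.sum_add_distrib, ← Finset.mul_sum]
      ring
    rw [h1]
    exact continuous_const.mul (continuous_finsetSum _ fun j _ =>
      continuous_finsetSum _ fun k _ => q2 j k)
  have cn3 : Continuous fun r : ℝ => r ^ (N - 1) * n3 (rs v r) := by
    have h1 := hCO1 _ q3'
    have h2 : (fun r : ℝ => r ^ (N - 1) * n3 (rs v r)) =
        fun r => av fun θ : Sp N => r ^ (N - 1) * r3 (rs v r) θ ^ 2 := by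
      funext r
      rw [av_const_mul]
      rfl
    rw [h2]
    exact h1
  have cn3' : Continuous fun r : ℝ => r ^ (N - 1) * (n3 (dr v r) +
      (3 * ((N : ℝ) + 1) / r ^ 2 - L) * n3 (rs v r)) := by
    have h1 := hCO1 _ q3
    have h2 : (fun r : ℝ => r ^ (N - 1) * (n3 (dr v r) +
        (3 * ((N : ℝ) + 1) / r ^ 2 - L) * n3 (rs v r))) =
        fun r => av fun θ : Sp N => r ^ (N - 1) * (r3 (dr v r) θ ^ 2 +
          ((3 * ((N : ℝ) + 1)) / r ^ 2 - L) * r3 (rs v r) θ ^ 2) := by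
      funext r
      rw [av_const_mul, av_add ((hBd3 r).pow 2) (((hBr3 r).pow 2).const_mul _), av_const_mul]
      rfl
    rw [h2]
    exact h1
  -- sum of the parts
  have s1 : ∫ r in (0 : ℝ)..a, r ^ (N - 1) * (n0 (rs v r) +
      (∑ j, (c1 (rs v r) j - T j * ph N L 1 r) ^ 2) / N + n2 (rs v r) + n3 (rs v r)) =
      (((∫ r in (0 : ℝ)..a, r ^ (N - 1) * n0 (rs v r)) +
        ∫ r in (0 : ℝ)..a, r ^ (N - 1) * ((∑ j, (c1 (rs v r) j - T j * ph N L 1 r) ^ 2) / N)) +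
        ∫ r in (0 : ℝ)..a, r ^ (N - 1) * n2 (rs v r)) +
        ∫ r in (0 : ℝ)..a, r ^ (N - 1) * n3 (rs v r) := by
    refine i2_add4 a _ _ _ _ _ cn0 cn1 cn2 cn3 fun r => ?_
    ring
  have s2 : ∫ r in (0 : ℝ)..a, r ^ (N - 1) * ((n0 (dr v r) - L * n0 (rs v r)) +
      (n1 (dr v r) + (((N : ℝ) - 1) / r ^ 2 - L) * n1 (rs v r)) +
      (n2 (dr v r) + (2 * N / r ^ 2 - L) * n2 (rs v r)) +
      (n3 (dr v r) + (3 * ((N : ℝ) + 1) / r ^ 2 - L) * n3 (rs v r))) =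
      (((∫ r in (0 : ℝ)..a, r ^ (N - 1) * (n0 (dr v r) - L * n0 (rs v r))) +
        ∫ r in (0 : ℝ)..a, r ^ (N - 1) * (n1 (dr v r) +
          (((N : ℝ) - 1) / r ^ 2 - L) * n1 (rs v r))) +
        ∫ r in (0 : ℝ)..a, r ^ (N - 1) * (n2 (dr v r) + (2 * N / r ^ 2 - L) * n2 (rs v r))) +
        ∫ r in (0 : ℝ)..a, r ^ (N - 1) * (n3 (dr v r) +
          (3 * ((N : ℝ) + 1) / r ^ 2 - L) * n3 (rs v r)) := by
    refine i2_add4 a _ _ _ _ _ cn0' cn1' cn2' cn3' fun r => ?_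
    ring
  refine le_trans ?_ hI
  rw [hball, s1, s2]
  have hfin := add_le_add (add_le_add (add_le_add m0 m1) m2) m3
  have hfin2 := mul_le_mul_of_nonneg_left hfin har.le
  refine le_trans (le_of_eq ?_) hfin2
  ring

end Pool.Agent.H7.LQ
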